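import Mathlib
import Pool.Agent.V1126.TC.Main

set_option autoImplicit false

/-!
# List edge colourings of sparse graphs: a local version

The proof is that of `Pool.Agent.V1126.TC.reduced`, for edges only and with the local bound
`|L(uv)| ≥ max (deg u) (deg v) C`.
-/

namespace Pool.Agent.V1149.SP

open Finset Pool.Agent.V1126.TC

variable {V : Type} [Fintype V]

theorem reducedE {m C : ℕ} (hm : 2 ≤ m) (hC : m * m + 2 ≤ 2 * C + m)
    (LE : V → V → Finset ℕ) (hLE : ∀ u v, LE u v = LE v u)
    (cap : V → ℕ) (hcap : ∀ u, C ≤ cap u) (hLE1 : ∀ u v, cap u ≤ (LE u v).card) :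
    ∀ (n : ℕ) (F : SimpleGraph V), ∑ v, dg F v = n → (∀ v, dg F v ≤ cap v) → Sp F m →
      ∃ cV cE, Col F univ (fun _ => Finset.range (2 * Fintype.card V + 1)) LE cV cE := by
  classical
  intro n
  induction n using Nat.strong_induction_on with
  | _ n IH =>
  intro F hn hdeg hsp
  by_contra hcon
  -- the colouring of proper subgraphs
  have sub : ∀ (F' : SimpleGraph V), (∀ a b, F'.Adj a b → F.Adj a b) →
      (∃ u v, F.Adj u v ∧ ¬ F'.Adj u v) →
      ∃ cV cE, Col F' univ (fun _ => Finset.range (2 * Fintype.card V + 1)) LE cV cE := by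
    intro F' hF' ⟨u, v, h1, h2⟩
    refine IH (∑ w, dg F' w) ?_ F' rfl (fun v => (dg_mono hF' v).trans (hdeg v)) (hsp.mono hF')
    rw [← hn]
    exact sum_dg_lt hF' h1 h2
  have hsingle : ∀ u v, F.Adj u v → (LE u v).card + 2 ≤ dg F u + dg F v := by
    intro u v huv
    by_contra hv
    push Not at hv
    apply hcon
    refine single hLE huv (fun huP => absurd (mem_univ u) huP) ?_ (sub (del F u v)
      (fun a b h => h.1) ⟨u, v, huv, fun h => h.2 rfl⟩)
    rw [if_pos (mem_univ v)]
    omega
  have hlow1 : ∀ u v, F.Adj u v → cap u + 2 ≤ dg F u + dg F v := by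
    intro u v huv
    have h1 := hsingle u v huv
    have h2 := hLE1 u v
    omega
  have hlow3 : ∀ u v, F.Adj u v → C + 2 ≤ dg F u + dg F v := by
    intro u v huv
    have h1 := hlow1 u v huv
    have h2 := hcap u
    omega
  have hCm : 2 * (m - 1) < C + 2 := by
    obtain ⟨t, rfl⟩ : ∃ t, m = t + 2 := ⟨m - 2, by omega⟩
    have h1 : t + 2 - 1 = t + 1 := rfl
    rw [h1]
    zify at hC ⊢
    nlinarith [sq_nonneg ((t : ℤ) - 1)]
  by_cases hne : ∃ u v, F.Adj u v
  swap
  · push Not at hne
    apply hcon
    exact ⟨fun _ => 0, fun _ _ => 0, ⟨fun u v h => absurd h (hne u v),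
      fun v hv => absurd (mem_univ v) hv, fun u v h => absurd h (hne u v),
      fun u v h => absurd h (hne u v), fun u v h => absurd h (hne u v),
      fun u v _ h => absurd h (hne u v)⟩⟩
  obtain ⟨u0, v0, huv0⟩ := hne
  have dg_pos : ∀ u v, F.Adj u v → 1 ≤ dg F u := by
    intro u v huv
    exact Finset.card_pos.2 ⟨v, by simp [huv]⟩
  set A : ℕ → Finset V := fun i => univ.filter (fun v => 1 ≤ dg F v ∧ dg F v ≤ i) with hA
  set N : ℕ → Finset V := fun i => univ.filter (fun y => ∃ x ∈ A i, F.Adj y x) with hN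
  have memA : ∀ i v, v ∈ A i ↔ 1 ≤ dg F v ∧ dg F v ≤ i := by
    intro i v
    simp [hA]
  have memN : ∀ i y, y ∈ N i ↔ ∃ x ∈ A i, F.Adj y x := by
    intro i y
    simp [hN]
  -- the sizes of the sets of low vertices
  have hAc : ∀ i, i < m → (A i).card ≤ (i - 1) * (N i).card := by
    intro i hi
    refine peel F (i - 1) (A i) (N i) (fun x hx y hxy => (memN i y).2 ⟨x, hx, hxy.symm⟩) ?_
    intro S hSA hSne
    by_contra hS
    push Not at hS
    have hS' : ∀ x ∈ S, ∀ y, F.Adj x y → i - 1 < (S.filter (fun x => F.Adj y x)).card :=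
      fun x hx y hxy => hS y (Finset.card_pos.2 ⟨x, by rw [Finset.mem_filter]; exact ⟨hx, hxy.symm⟩⟩)
    have hlowS : ∀ x ∈ S, 1 ≤ dg F x ∧ dg F x ≤ i := fun x hx => (memA i x).1 (hSA hx)
    apply hcon
    refine extend hLE S ?_ ?_ ?_ (sub (cut F S) (fun a b h => h.1) ?_)
    · intro x hx y hy hxy
      have h1 := hlowS x hx
      have h2 := hlowS y hy
      have h3 := hlow3 x y hxy
      omega
    · intro x hx
      have h1 : dg F x ≤ Fintype.card V := Finset.card_le_univ _
      rw [Finset.card_range]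
      omega
    · intro x hx y hxy
      have h1 := hlowS x hx
      have h2 := hS' x hx y hxy
      have h3 : (S.filter (fun z => F.Adj y z)).card ≤ dg F y := by
        refine Finset.card_le_card fun z hz => ?_
        rw [Finset.mem_filter] at hz ⊢
        exact ⟨Finset.mem_univ _, hz.2⟩
      have h6 : max (dg F x) (S.filter (fun z => F.Adj y z)).card ≤
          (S.filter (fun z => F.Adj y z)).card := by
        apply max_le
        · omega
        · omega
      rw [if_pos (mem_univ y)]
      have h4 := hLE1 y x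
      rw [hLE y x] at h4
      have h5 := hdeg y
      omega
    · obtain ⟨x, hx⟩ := hSne
      obtain ⟨y, hy⟩ := Finset.card_pos.1 (show 0 < dg F x from (hlowS x hx).1)
      rw [Finset.mem_filter] at hy
      exact ⟨x, y, hy.2, fun h => h.2.1 hx⟩
  -- the weights
  set w : V → ℕ := fun y => (∑ i ∈ Finset.Icc 1 (m - 1), if y ∈ N i then (i - 1) else 0) with hw
  have hwt : ∀ y, 0 < w y → w y + m ≤ dg F y := by
    intro y hwy
    by_cases hyN : y ∈ N (m - 1)
    · -- a neighbour of minimum degree
      have hex : ∃ j, ∃ x, F.Adj y x ∧ dg F x < m ∧ dg F x = j := by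
        obtain ⟨x, hx, hyx⟩ := (memN (m - 1) y).1 hyN
        have hx' := (memA (m - 1) x).1 hx
        exact ⟨dg F x, x, hyx, by omega, rfl⟩
      set j := Nat.find hex with hj
      obtain ⟨x, hyx, hxm, hxj⟩ := Nat.find_spec hex
      rw [← hj] at hxj
      have hjmin : ∀ i, i < m → y ∈ N i → j ≤ i := by
        intro i hi hy
        obtain ⟨z, hz, hyz⟩ := (memN i y).1 hy
        have hz' := (memA i z).1 hz
        have h1 : j ≤ dg F z := Nat.find_min' hex ⟨z, hyz, by omega, rfl⟩
        omega
      have hj2 : 0 + 2 ≤ j := by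
        have h1 := hlow1 y x hyx
        have h2 := hdeg y
        omega
      have hjC : C + 2 ≤ j + dg F y := by
        have h1 := hlow3 y x hyx
        omega
      have hsum : (∑ i ∈ Finset.Icc 1 (m - 1), if y ∈ N i then (i - 1) else 0) ≤
          ∑ i ∈ Finset.Icc j (m - 1), (i - 1 - 0) := by
        rw [← Finset.sum_filter]
        refine Finset.sum_le_sum_of_subset fun i hi => ?_
        rw [Finset.mem_filter, Finset.mem_Icc] at hi
        rw [Finset.mem_Icc]
        exact ⟨hjmin i (by omega) hi.2, hi.1.2⟩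
      have hlev := sum_levels 0 j hj2 (m - 1) (by omega)
      have hcast : ((m - 1 : ℕ) : ℤ) = (m : ℤ) - 1 := by omega
      rw [hcast] at hlev
      set T := ∑ i ∈ Finset.Icc j (m - 1), (i - 1 - 0) with hT
      have hbound : (T : ℤ) + m ≤ dg F y := by
        have hq : ((j : ℤ) - 2) * 2 ≤ ((j : ℤ) - 1) * (j - 2) := by
          have h1 : (0 : ℤ) ≤ (j : ℤ) - 2 := by omega
          rcases h1.eq_or_lt with h2 | h2
          · rw [← h2]; simp
          · have h3 : (1 : ℤ) ≤ (j : ℤ) - 2 := by omega
            nlinarith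
        have hD2 : ((m : ℤ) * m + 2) ≤ 2 * C + m := by exact_mod_cast hC
        have hjC' : (C : ℤ) + 2 ≤ j + dg F y := by exact_mod_cast hjC
        push_cast at *
        nlinarith
      have hwle : w y ≤ T := hsum
      omega
    · have hN0 : (∑ i ∈ Finset.Icc 1 (m - 1), if y ∈ N i then (i - 1) else 0) = 0 := by
        refine Finset.sum_eq_zero fun i hi => ?_
        rw [Finset.mem_Icc] at hi
        rw [if_neg]
        intro hy
        apply hyN
        obtain ⟨x, hx, hyx⟩ := (memN i y).1 hy
        refine (memN (m - 1) y).2 ⟨x, ?_, hyx⟩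
        have hx' := (memA i x).1 hx
        exact (memA (m - 1) x).2 ⟨hx'.1, by omega⟩
      exfalso
      simp only [hw, hN0] at hwy
      omega
  -- the sum of the deficiencies
  have hdefA : ∑ v ∈ A (m - 1), (m - dg F v) = ∑ i ∈ Finset.Icc 1 (m - 1), (A i).card := by
    have h1 : ∀ i ∈ Finset.Icc 1 (m - 1), (A i).card =
        ∑ v ∈ A (m - 1), if dg F v ≤ i then 1 else 0 := by
      intro i hi
      rw [Finset.mem_Icc] at hi
      rw [← Finset.card_filter]
      congr 1
      ext v
      constructor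
      · intro h
        obtain ⟨h2, h3⟩ := (memA i v).1 h
        exact Finset.mem_filter.2 ⟨(memA (m - 1) v).2 ⟨h2, by omega⟩, h3⟩
      · intro h
        obtain ⟨h0, h3⟩ := Finset.mem_filter.1 h
        obtain ⟨h2, _⟩ := (memA (m - 1) v).1 h0
        exact (memA i v).2 ⟨h2, h3⟩
    rw [Finset.sum_congr rfl h1, Finset.sum_comm]
    refine Finset.sum_congr rfl fun v hv => ?_
    rw [← Finset.card_filter]
    have hv' := (memA (m - 1) v).1 hv
    have h2 : (Finset.Icc 1 (m - 1)).filter (fun i => dg F v ≤ i) = Finset.Icc (dg F v) (m - 1) := by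
      ext i
      simp only [Finset.mem_filter, Finset.mem_Icc]
      omega
    rw [h2, Nat.card_Icc]
    omega
  have htotal : ∑ v ∈ A (m - 1), (m - dg F v) ≤ ∑ y, w y := by
    have h3 : ∑ i ∈ Finset.Icc 1 (m - 1), (A i).card ≤
        ∑ y, ∑ i ∈ Finset.Icc 1 (m - 1), (if y ∈ N i then (i - 1) else 0) := by
      rw [Finset.sum_comm]
      refine Finset.sum_le_sum fun i hi => ?_
      rw [Finset.mem_Icc] at hi
      rw [Finset.sum_ite_mem, Finset.univ_inter, Finset.sum_const, smul_eq_mul, mul_comm]
      exact hAc i (by omega)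
    rw [hdefA]
    exact h3
  -- the contradiction
  set X := univ.filter (fun v => 1 ≤ dg F v) with hX
  have hXne : X.Nonempty := ⟨u0, by simp [hX, dg_pos u0 v0 huv0]⟩
  have hsp1 := hsp X hXne
  have hsum : ∑ v ∈ X, (X.filter (fun w => F.Adj v w)).card = ∑ v ∈ X, dg F v := by
    refine Finset.sum_congr rfl fun v _ => ?_
    unfold dg
    congr 1
    ext w
    simp only [hX, Finset.mem_filter, Finset.mem_univ, true_and, and_iff_right_iff_imp]
    exact fun h => dg_pos w v h.symm
  rw [hsum] at hsp1
  have hlowX : A (m - 1) = X.filter (fun v => dg F v < m) := by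
    ext v
    rw [memA, Finset.mem_filter, hX, Finset.mem_filter]
    constructor
    · rintro ⟨h2, h3⟩
      exact ⟨⟨Finset.mem_univ _, h2⟩, by omega⟩
    · rintro ⟨⟨_, h2⟩, h3⟩
      exact ⟨h2, by omega⟩
  have hdef : ∑ v ∈ X.filter (fun v => dg F v < m), (m - dg F v) ≤ ∑ y, w y := by
    rw [← hlowX]
    exact htotal
  have hsurp : ∑ y, w y ≤ ∑ v ∈ X.filter (fun v => ¬ dg F v < m), (dg F v - m) := by
    have h1 : ∑ y, w y = ∑ y ∈ univ.filter (fun y => 0 < w y), w y := by
      symm
      refine Finset.sum_subset (Finset.filter_subset _ _) fun y _ hy => ?_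
      rw [Finset.mem_filter] at hy
      have : ¬ 0 < w y := fun h => hy ⟨Finset.mem_univ _, h⟩
      omega
    rw [h1]
    have h2 : univ.filter (fun y => 0 < w y) ⊆ X.filter (fun v => ¬ dg F v < m) := by
      intro y hy
      rw [Finset.mem_filter] at hy
      have h3 := hwt y hy.2
      rw [Finset.mem_filter, hX, Finset.mem_filter]
      exact ⟨⟨Finset.mem_univ _, by omega⟩, by omega⟩
    refine (Finset.sum_le_sum fun y hy => ?_).trans (Finset.sum_le_sum_of_subset h2)
    rw [Finset.mem_filter] at hy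
    have h3 := hwt y hy.2
    omega
  have hsplit : (∑ v ∈ X, dg F v) + ∑ v ∈ X.filter (fun v => dg F v < m), (m - dg F v) =
      m * X.card + ∑ v ∈ X.filter (fun v => ¬ dg F v < m), (dg F v - m) := by
    rw [← Finset.sum_filter_add_sum_filter_not X (fun v => dg F v < m) (fun v => dg F v)]
    have e1 : ∑ v ∈ X.filter (fun v => dg F v < m), dg F v +
        ∑ v ∈ X.filter (fun v => dg F v < m), (m - dg F v) =
        (X.filter (fun v => dg F v < m)).card * m := by
      rw [← Finset.sum_add_distrib, ← smul_eq_mul, ← Finset.sum_const]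
      refine Finset.sum_congr rfl fun v hv => ?_
      rw [Finset.mem_filter] at hv
      omega
    have e2 : ∑ v ∈ X.filter (fun v => ¬ dg F v < m), dg F v =
        (X.filter (fun v => ¬ dg F v < m)).card * m +
          ∑ v ∈ X.filter (fun v => ¬ dg F v < m), (dg F v - m) := by
      rw [← smul_eq_mul, ← Finset.sum_const, ← Finset.sum_add_distrib]
      refine Finset.sum_congr rfl fun v hv => ?_
      rw [Finset.mem_filter] at hv
      omega
    have e3 : (X.filter (fun v => dg F v < m)).card + (X.filter (fun v => ¬ dg F v < m)).card =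
        X.card := Finset.card_filter_add_card_filter_not _
    rw [e2, ← e3]
    linarith
  omega

end Pool.Agent.V1149.SP
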