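import Mathlib
import Pool.Agent.V1149.SP.Edge
import Pool.Agent.V1149.BT.Ext

set_option autoImplicit false

/-!
# Extending partial total colourings of sparse graphs with `Δ + d + 2` colours
-/

namespace Pool.Agent.V1149.SP

open Finset Pool.Agent.V1126.TC Pool.Agent.V1149.BT

variable {V : Type} [Fintype V]

theorem greedy (G H : SimpleGraph V) (k : ℕ) (hk : ∀ v, dg G v + dg H v < k)
    (S : Set V) (f0 : V → Fin k) (g0 : Sym2 V → Fin k)
    (p1 : ∀ a ∈ S, ∀ b ∈ S, G.Adj a b → f0 a ≠ f0 b)
    (p3 : ∀ a ∈ S, ∀ b, H.Adj a b → g0 s(a, b) ≠ f0 a) :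
    ∃ c : V → Fin k, (∀ a ∈ S, c a = f0 a) ∧ (∀ a b, G.Adj a b → c a ≠ c b) ∧
      ∀ a b, H.Adj a b → g0 s(a, b) ≠ c a := by
  classical
  have main : ∀ T : Finset V, ∃ c : V → Fin k, (∀ a ∈ S, c a = f0 a) ∧
      (∀ a b, (a ∈ S ∨ a ∈ T) → (b ∈ S ∨ b ∈ T) → G.Adj a b → c a ≠ c b) ∧
      ∀ a b, (a ∈ S ∨ a ∈ T) → H.Adj a b → g0 s(a, b) ≠ c a := by
    intro T
    induction T using Finset.induction_on with
    | empty =>
      refine ⟨f0, fun _ _ => rfl, ?_, ?_⟩
      · rintro a b (ha | ha) (hb | hb) hab
        · exact p1 a ha b hb hab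
        · simp at hb
        · simp at ha
        · simp at ha
      · rintro a b (ha | ha) hab
        · exact p3 a ha b hab
        · simp at ha
    | insert v T hv ih =>
      obtain ⟨c, c1, c2, c3⟩ := ih
      by_cases hvS : v ∈ S
      · have hm : ∀ a, (a ∈ S ∨ a ∈ insert v T) → (a ∈ S ∨ a ∈ T) := by
          rintro a (ha | ha)
          · exact Or.inl ha
          · rw [mem_insert] at ha
            rcases ha with rfl | ha
            · exact Or.inl hvS
            · exact Or.inr ha
        exact ⟨c, c1, fun a b ha hb => c2 a b (hm a ha) (hm b hb), fun a b ha => c3 a b (hm a ha)⟩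
      · set R : Finset (Fin k) := (univ.filter (fun a => G.Adj v a)).image c ∪
          (univ.filter (fun a => H.Adj v a)).image (fun a => g0 s(v, a)) with hR
        have h1 : R.card < k := by
          have a1 := card_union_le ((univ.filter (fun a => G.Adj v a)).image c)
            ((univ.filter (fun a => H.Adj v a)).image (fun a => g0 s(v, a)))
          have a2 : ((univ.filter (fun a => G.Adj v a)).image c).card ≤ dg G v := by
            refine card_image_le.trans (le_of_eq ?_)
            unfold dg; congr
          have a3 : ((univ.filter (fun a => H.Adj v a)).image (fun a => g0 s(v, a))).card ≤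
              dg H v := by
            refine card_image_le.trans (le_of_eq ?_)
            unfold dg; congr
          have a4 := hk v
          rw [hR]
          omega
        have : ∃ t : Fin k, t ∉ R := by
          by_contra hcon
          push Not at hcon
          have : (univ : Finset (Fin k)) ⊆ R := fun t _ => hcon t
          have := card_le_card this
          rw [card_univ, Fintype.card_fin] at this
          omega
        obtain ⟨t, ht⟩ := this
        rw [hR, mem_union, not_or, mem_image, mem_image] at ht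
        have t1 : ∀ x, G.Adj v x → t ≠ c x := fun x hx h' =>
          ht.1 ⟨x, by rw [mem_filter]; exact ⟨mem_univ _, hx⟩, h'.symm⟩
        have t2 : ∀ x, H.Adj v x → t ≠ g0 s(v, x) := fun x hx h' =>
          ht.2 ⟨x, by rw [mem_filter]; exact ⟨mem_univ _, hx⟩, h'.symm⟩
        have hm : ∀ a, a ≠ v → (a ∈ S ∨ a ∈ insert v T) → (a ∈ S ∨ a ∈ T) := by
          rintro a hav (ha | ha)
          · exact Or.inl ha
          · rw [mem_insert] at ha
            rcases ha with ha | ha
            · exact absurd ha hav
            · exact Or.inr ha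
        have u1 : ∀ a, a ≠ v → Function.update c v t a = c a := fun a ha =>
          Function.update_of_ne ha _ _
        have u2 : Function.update c v t v = t := Function.update_self _ _ _
        refine ⟨Function.update c v t, ?_, ?_, ?_⟩
        · intro a ha
          rw [u1 a (fun h => hvS (h ▸ ha))]
          exact c1 a ha
        · intro a b ha hb hab
          by_cases hav : a = v
          · subst hav
            rw [u2, u1 b hab.ne']
            exact t1 b hab
          · by_cases hbv : b = v
            · subst hbv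
              rw [u2, u1 a hav]
              exact (t1 a hab.symm).symm
            · rw [u1 a hav, u1 b hbv]
              exact c2 a b (hm a hav ha) (hm b hbv hb) hab
        · intro a b ha hab
          by_cases hav : a = v
          · subst hav
            rw [u2]
            exact (t2 b hab).symm
          · rw [u1 a hav]
            exact c3 a b (hm a hav ha) hab
  obtain ⟨c, c1, c2, c3⟩ := main univ
  exact ⟨c, c1, fun a b => c2 a b (Or.inr (mem_univ _)) (Or.inr (mem_univ _)),
    fun a b => c3 a b (Or.inr (mem_univ _))⟩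

theorem sparse (G H : SimpleGraph V) (m k d : ℕ) (hm : 2 ≤ m) (hsp : Sp G m)
    (hH : ∀ a b, H.Adj a b → G.Adj a b) (hd : ∀ v, dg H v ≤ d)
    (hk1 : ∀ v, dg G v + d + 2 ≤ k) (hk2 : m * m + 6 + 4 * d ≤ 2 * k + m)
    (S : Set V) (f0 : V → Fin k) (g0 : Sym2 V → Fin k)
    (p1 : ∀ a ∈ S, ∀ b ∈ S, G.Adj a b → f0 a ≠ f0 b)
    (p2 : ∀ a b b', H.Adj a b → H.Adj a b' → b ≠ b' → g0 s(a, b) ≠ g0 s(a, b'))
    (p3 : ∀ a ∈ S, ∀ b, H.Adj a b → g0 s(a, b) ≠ f0 a) :
    ∃ (c : V → Fin k) (d : Sym2 V → Fin k), IsTotalColoring G c d ∧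
      (∀ a ∈ S, c a = f0 a) ∧ ∀ a b, H.Adj a b → d s(a, b) = g0 s(a, b) := by
  classical
  obtain ⟨c, c1, c2, c3⟩ := greedy G H k (fun v => by have := hk1 v; have := hd v; omega) S f0 g0
    p1 p3
  -- the rest of the graph
  let F : SimpleGraph V :=
    { Adj := fun a b => G.Adj a b ∧ ¬ H.Adj a b
      symm := ⟨fun _ _ h => ⟨h.1.symm, fun h' => h.2 h'.symm⟩⟩
      loopless := ⟨fun a h => G.loopless.irrefl a h.1⟩ }
  have hF : ∀ a b, F.Adj a b → G.Adj a b := fun a b h => h.1
  have hdeg : ∀ v, dg F v + dg H v ≤ dg G v := by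
    intro v
    have key : ∀ (A B C : Finset V), (∀ a, a ∈ A ↔ F.Adj v a) → (∀ a, a ∈ B ↔ H.Adj v a) →
        (∀ a, a ∈ C ↔ G.Adj v a) → A.card + B.card ≤ C.card := by
      intro A B C hA hB hC
      rw [← card_union_of_disjoint]
      · apply card_le_card
        intro a ha
        rw [mem_union, hA, hB] at ha
        rw [hC]
        rcases ha with ha | ha
        · exact ha.1
        · exact hH _ _ ha
      · rw [disjoint_left]
        intro a ha ha'
        rw [hA] at ha
        rw [hB] at ha'
        exact ha.2 ha'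
    exact key _ _ _ (fun a => by simp) (fun a => by simp) (fun a => by simp)
  set Hc : V → Finset ℕ := fun u => (univ.filter (fun w => H.Adj u w)).image
    (fun w => (g0 s(u, w)).val) with hHc
  have hHcc : ∀ u, (Hc u).card ≤ dg H u := by
    intro u
    rw [hHc]
    refine card_image_le.trans (le_of_eq ?_)
    unfold dg; congr
  set LE : V → V → Finset ℕ := fun u v =>
    Finset.range k \ ({(c u).val, (c v).val} ∪ (Hc u ∪ Hc v)) with hLEd
  have hLE : ∀ u v, LE u v = LE v u := by
    intro u v
    simp only [hLEd]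
    rw [Finset.union_comm (Hc u), Finset.pair_comm]
  have hLE1 : ∀ u v, k - d - 2 - dg H u ≤ (LE u v).card := by
    intro u v
    have h1 := Finset.le_card_sdiff ({(c u).val, (c v).val} ∪ (Hc u ∪ Hc v)) (Finset.range k)
    have h2 : ({(c u).val, (c v).val} ∪ (Hc u ∪ Hc v) : Finset ℕ).card ≤
        2 + ((Hc u).card + (Hc v).card) :=
      (card_union_le _ _).trans (add_le_add card_le_two (card_union_le _ _))
    have h3 := hHcc u
    have h4 := hHcc v
    have h5 := hd v
    rw [Finset.card_range] at h1
    simp only [hLEd]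
    omega
  obtain ⟨cV, cE, hcol⟩ := reducedE (m := m) (C := k - d - 2 - d) hm (by omega) LE hLE
    (fun u => k - d - 2 - dg H u) (fun u => by have := hd u; omega) hLE1 _ F rfl
    (fun v => by have := hdeg v; have := hk1 v; omega) (hsp.mono hF)
  -- the colouring
  have hsym : ∀ u v, (fun u v => if F.Adj u v then cE u v else 0) u v =
      (fun u v => if F.Adj u v then cE u v else 0) v u := by
    intro u v
    show (if F.Adj u v then cE u v else 0) = (if F.Adj v u then cE v u else 0)
    by_cases h : F.Adj u v
    · rw [if_pos h, if_pos h.symm]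
      exact hcol.sym u v h
    · rw [if_neg h, if_neg (fun h' => h h'.symm)]
  set l : Sym2 V → ℕ := Sym2.lift ⟨fun u v => if F.Adj u v then cE u v else 0, hsym⟩ with hl
  set d' : Sym2 V → Fin k := fun e => if e ∈ H.edgeSet then g0 e else
    if h : l e < k then ⟨l e, h⟩ else g0 e with hd'
  have hd1 : ∀ u v, H.Adj u v → d' s(u, v) = g0 s(u, v) := by
    intro u v h
    simp only [hd']
    rw [if_pos (by rw [SimpleGraph.mem_edgeSet]; exact h)]
  have hmem : ∀ u v, G.Adj u v → ¬ H.Adj u v → cE u v < k ∧ cE u v ≠ (c u).val ∧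
      cE u v ∉ Hc u := by
    intro u v h h'
    have h1 := hcol.le u v ⟨h, h'⟩
    simp only [hLEd] at h1
    rw [mem_sdiff, mem_range, mem_union, mem_union, not_or, not_or, mem_insert, not_or] at h1
    exact ⟨h1.1, h1.2.1.1, h1.2.2.1⟩
  have hd2 : ∀ u v, G.Adj u v → ¬ H.Adj u v → (d' s(u, v)).val = cE u v := by
    intro u v h h'
    have hle : l s(u, v) = cE u v := by
      rw [hl, Sym2.lift_mk]
      exact if_pos ⟨h, h'⟩
    have hlt : l s(u, v) < k := by rw [hle]; exact (hmem u v h h').1
    simp only [hd']
    rw [if_neg (by rw [SimpleGraph.mem_edgeSet]; exact h'), dif_pos hlt]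
    exact hle
  have hHm : ∀ u v, H.Adj u v → (g0 s(u, v)).val ∈ Hc u := by
    intro u v h
    rw [hHc]
    exact mem_image.2 ⟨v, by rw [mem_filter]; exact ⟨mem_univ _, h⟩, rfl⟩
  refine ⟨c, d', ⟨c2, ?_, ?_⟩, c1, hd1⟩
  · intro u v w huv huw hvw
    by_cases h1 : H.Adj u v
    · by_cases h2 : H.Adj u w
      · rw [hd1 u v h1, hd1 u w h2]
        exact p2 u v w h1 h2 hvw
      · intro h
        apply (hmem u w huw h2).2.2
        rw [← hd2 u w huw h2, ← h, hd1 u v h1]
        exact hHm u v h1
    · by_cases h2 : H.Adj u w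
      · intro h
        apply (hmem u v huv h1).2.2
        rw [← hd2 u v huv h1, h, hd1 u w h2]
        exact hHm u w h2
      · intro h
        have h3 := congrArg Fin.val h
        rw [hd2 u v huv h1, hd2 u w huw h2] at h3
        exact hcol.ee u v w ⟨huv, h1⟩ ⟨huw, h2⟩ hvw h3
  · intro u v huv
    by_cases h1 : H.Adj u v
    · rw [hd1 u v h1]
      exact c3 u v h1
    · intro h
      have h3 := congrArg Fin.val h
      rw [hd2 u v huv h1] at h3
      exact (hmem u v huv h1).2.1 h3

end Pool.Agent.V1149.SP
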